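import Pool.Agent.H.MP_e5a79a_an.Defs

open Set Filter Topology MeasureTheory Real

namespace Pool.Agent.H.MP_e5a79a_an

lemma anti_of_test {f : ℝ → ℝ} (hf : Continuous f)
    (h : ∀ φ : ℝ → ℝ, ContDiff ℝ 1 φ → ∀ y, IsLocalMax (f - φ) y → deriv φ y ≤ 0) :
    Antitone f := by
  intro a b hab
  by_contra h1
  rw [not_le] at h1
  obtain ⟨ε, hε⟩ : ∃ ε, ε = (f b - f a) / 2 := ⟨_, rfl⟩
  have h2 : 0 < ε := by linarith
  obtain ⟨K, hK, hK'⟩ : ∃ K : ℝ, 0 < K ∧ f (b + 1) - f b < ε * K :=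
    ⟨|f (b + 1) - f b| / ε + 1, by positivity, by
      rw [mul_add, mul_div_cancel₀ _ h2.ne']
      linarith [le_abs_self (f (b + 1) - f b)]⟩
  let φ : ℝ → ℝ := fun y => ε * exp (K * (y - b))
  have hφ : ContDiff ℝ 1 φ := by fun_prop
  obtain ⟨y, hy, h3⟩ := (isCompact_Icc (a := a) (b := b + 1)).exists_isMaxOn
    ⟨a, le_rfl, by linarith⟩ (hf.sub hφ.continuous).continuousOn
  have h4 : f b - φ b ≤ f y - φ y := h3 (show b ∈ Icc a (b + 1) from ⟨hab, by linarith⟩)
  have h5 : φ b = ε := by simp [φ]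
  have h6 : y ≠ a := by
    rintro rfl
    have : 0 < φ y := by positivity
    linarith
  have h7 : y ≠ b + 1 := by
    rintro rfl
    have : ε * (K + 1) ≤ φ (b + 1) :=
      mul_le_mul_of_nonneg_left (by simpa using add_one_le_exp K) h2.le
    linarith
  have h8 := h φ hφ y (h3.isLocalMax (Icc_mem_nhds (lt_of_le_of_ne hy.1 h6.symm)
    (lt_of_le_of_ne hy.2 h7)))
  have h9 : HasDerivAt φ (ε * (exp (K * (y - b)) * (K * 1))) y :=
    (((hasDerivAt_id y).sub_const b).const_mul K).exp.const_mul ε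
  rw [h9.deriv] at h8
  exact absurd h8 (not_le.2 (by positivity))

noncomputable def PP (a x : ℝ) : ℝ := √(sin (π * x) ^ 2 + a)
noncomputable def mm (a : ℝ) : ℝ := ∫ x in (0 : ℝ)..1, PP a x
noncomputable def vv (a x : ℝ) : ℝ := (∫ z in (0 : ℝ)..x, PP a z) - mm a * x
noncomputable def Ham (m x p : ℝ) : ℝ := (p + m) ^ 2 / 2 - sin (π * x) ^ 2 / 2

lemma PP_cont (a : ℝ) : Continuous (PP a) := by unfold PP; fun_prop
lemma PP_nonneg (a x : ℝ) : 0 ≤ PP a x := sqrt_nonneg _
lemma PP_sq {a : ℝ} (ha : 0 ≤ a) (x : ℝ) : PP a x ^ 2 = sin (π * x) ^ 2 + a :=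
  sq_sqrt (by positivity)
lemma sin_per (x : ℝ) : sin (π * (x + 1)) ^ 2 = sin (π * x) ^ 2 := by
  rw [mul_add, mul_one, sin_add_pi, neg_sq]
lemma PP_per (a : ℝ) : Function.Periodic (PP a) 1 := fun x => by rw [PP, PP, sin_per]
lemma PP_le (a x : ℝ) : PP a x ≤ √(1 + a) := sqrt_le_sqrt (by linarith [sin_sq_le_one (π * x)])
lemma PP_mono {a b : ℝ} (h : a ≤ b) (x : ℝ) : PP a x ≤ PP b x := sqrt_le_sqrt (by linarith)
lemma PP_sub {a b : ℝ} (ha : 0 ≤ a) (h : a ≤ b) (x : ℝ) : PP b x ≤ PP a x + √(b - a) := by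
  have h1 := PP_nonneg a x
  have h2 := sqrt_nonneg (b - a)
  refine sqrt_le_iff.2 ⟨by positivity, ?_⟩
  nlinarith [PP_sq ha x, sq_sqrt (sub_nonneg.2 h), mul_nonneg h1 h2]

lemma vv_deriv (a x : ℝ) : HasDerivAt (vv a) (PP a x - mm a) x := by
  have := ((PP_cont a).integral_hasStrictDerivAt 0 x).hasDerivAt.sub
    ((hasDerivAt_id x).const_mul (mm a))
  rw [mul_one] at this
  exact this
lemma deriv_vv (a : ℝ) : deriv (vv a) = fun x => PP a x - mm a :=
  funext fun x => (vv_deriv a x).deriv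
lemma vv_smooth (a : ℝ) : ContDiff ℝ 1 (vv a) := by
  rw [contDiff_one_iff_deriv, deriv_vv]
  exact ⟨fun x => (vv_deriv a x).differentiableAt, (PP_cont a).sub continuous_const⟩
lemma vv_per (a : ℝ) : Function.Periodic (vv a) 1 := fun x => by
  have := (PP_per a).intervalIntegral_add_eq_add 0 x fun _ _ => (PP_cont a).intervalIntegrable _ _
  rw [vv, vv, this, zero_add, mm]
  ring

lemma Ham_vv {a : ℝ} (ha : 0 ≤ a) (x : ℝ) : Ham (mm a) x (deriv (vv a) x) = a / 2 := by
  rw [deriv_vv, Ham, sub_add_cancel, PP_sq ha]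
  ring

lemma vv_visc {a : ℝ} (ha : 0 ≤ a) : IsVisc (Ham (mm a)) (a / 2) (vv a) := by
  refine ⟨(vv_smooth a).continuous, vv_per a, fun φ hφ y => ?_⟩
  have key : deriv (vv a - φ) y = 0 → Ham (mm a) y (deriv φ y) = a / 2 := fun h => by
    rw [deriv_sub (vv_deriv a y).differentiableAt (hφ.differentiable one_ne_zero y)] at h
    rw [← sub_eq_zero.1 h, Ham_vv ha]
  exact ⟨fun h => (key h.deriv_eq_zero).le, fun h => (key h.deriv_eq_zero).ge⟩

lemma visc_unique {a k : ℝ} (ha : 0 ≤ a) {w : ℝ → ℝ} (h : IsVisc (Ham (mm a)) k w) :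
    k = a / 2 ∧ ∃ C, ∀ x, w x = vv a x + C := by
  have hc := h.1.sub (vv_smooth a).continuous
  have hp := h.2.1.sub (vv_per a)
  have hk : k = a / 2 := by
    obtain ⟨_, ⟨x, rfl⟩, hx⟩ := (hp.compact_of_continuous one_ne_zero hc).exists_isGreatest
      (range_nonempty _)
    obtain ⟨_, ⟨y, rfl⟩, hy⟩ := (hp.compact_of_continuous one_ne_zero hc).exists_isLeast
      (range_nonempty _)
    have h1 := (h.2.2 _ (vv_smooth a) x).1 (Eventually.of_forall fun z => hx ⟨z, rfl⟩)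
    have h2 := (h.2.2 _ (vv_smooth a) y).2 (Eventually.of_forall fun z => hy ⟨z, rfl⟩)
    rw [Ham_vv ha] at h1 h2
    exact le_antisymm h2 h1
  have h1 : Antitone (w - vv a) := anti_of_test hc fun φ hφ y hy => by
    have h2 := (h.2.2 (vv a + φ) ((vv_smooth a).add hφ) y).1 (by rwa [← sub_sub])
    rw [deriv_add (vv_deriv a y).differentiableAt (hφ.differentiable one_ne_zero y), deriv_vv, hk,
      Ham] at h2
    have h3 := PP_sq ha y
    have h4 := PP_nonneg a y
    by_contra h5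
    rw [not_le] at h5
    nlinarith
  refine ⟨hk, (w - vv a) 0, fun x => ?_⟩
  obtain ⟨y, hy, h2⟩ := hp.exists_mem_Ico₀ one_pos x
  have h3 := h1 hy.1
  have h4 := h1 hy.2.le
  have h5 := hp 0
  rw [zero_add] at h5
  simp only [Pi.sub_apply] at *
  linarith

lemma Lag_eq (m x w : ℝ) : Lag (Ham m) x w = w ^ 2 / 2 - m * w + sin (π * x) ^ 2 / 2 := by
  refine IsGreatest.csSup_eq ⟨⟨w - m, by simp only [Ham]; ring⟩, ?_⟩
  rintro _ ⟨p, rfl⟩
  simp only [Ham]
  nlinarith [sq_nonneg (p + m - w)]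

lemma Lag_eq' {a : ℝ} (ha : 0 ≤ a) (x w : ℝ) :
    Lag (Ham (mm a)) x w + a / 2 = (PP a x - mm a) * w + (w - PP a x) ^ 2 / 2 := by
  rw [Lag_eq]
  linear_combination (-1 / 2) * PP_sq ha x

lemma vv_ac (a : ℝ) {γ : ℝ → ℝ} {t : ℝ} (h : AbsolutelyContinuousOnInterval γ 0 t) :
    AbsolutelyContinuousOnInterval (vv a ∘ γ) 0 t := by
  have hL : LipschitzWith ⟨√(1 + a) + |mm a|, by positivity⟩ (vv a) :=
    lipschitzWith_of_nnnorm_deriv_le (fun x => (vv_deriv a x).differentiableAt) fun x => by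
      rw [deriv_vv, ← NNReal.coe_le_coe, coe_nnnorm, Real.norm_eq_abs]
      refine (abs_sub _ _).trans ?_
      rw [abs_of_nonneg (PP_nonneg a x)]
      exact add_le_add_left (PP_le a x) _
  refine squeeze_zero (fun E => Finset.sum_nonneg fun _ _ => dist_nonneg) (fun E => ?_)
    (by simpa using Tendsto.const_mul (√(1 + a) + |mm a|) h)
  rw [Finset.mul_sum]
  exact Finset.sum_le_sum fun i _ => hL.dist_le_mul _ _

lemma act_nonneg {a : ℝ} (ha : 0 ≤ a) (x : ℝ) {t : ℝ} (ht : 0 ≤ t) :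
    0 ≤ minAct (Ham (mm a)) (a / 2) x x t := by
  simp only [minAct, le_iInf_iff]
  rintro γ h1 h2 ⟨n, h3⟩ h4
  have h5 := vv_ac a h1
  have h6 := h5.integral_deriv_eq_sub
  simp only [Function.comp, h2, h3] at h6
  have h7 := (vv_per a).int_mul n x
  rw [mul_one] at h7
  rw [h7, sub_self] at h6
  rw [EReal.coe_nonneg]
  refine h6.symm.le.trans
    (intervalIntegral.integral_mono_ae_restrict ht h5.intervalIntegrable_deriv h4 ?_)
  rw [EventuallyLE, ae_restrict_iff' measurableSet_Icc]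
  filter_upwards [h1.ae_differentiableAt] with s hs hs'
  rw [Lag_eq' ha, ((vv_deriv a (γ s)).comp s (hs (by rwa [uIcc_of_le ht])).hasDerivAt).deriv]
  linarith [sq_nonneg (deriv γ s - PP a (γ s))]

lemma exists_orbit {b : ℝ} (hb : 0 < b) (x : ℝ) : ∃ γ τ : ℝ → ℝ,
    (∀ s, HasDerivAt γ (PP b (γ s)) s) ∧ γ 0 = x ∧ (∀ y, γ (τ y) = y) ∧
      ∀ y, x ≤ y → (y - x) / √(1 + b) ≤ τ y := by
  have hp : ∀ z, 0 < PP b z := fun z => sqrt_pos.2 (by positivity)
  have hc : Continuous fun z => (PP b z)⁻¹ := (PP_cont b).inv₀ fun z => (hp z).ne'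
  let τ : ℝ → ℝ := fun y => ∫ z in x..y, (PP b z)⁻¹
  have hτ : ∀ y, HasStrictDerivAt τ (PP b y)⁻¹ y := fun y => hc.integral_hasStrictDerivAt x y
  have h0 : τ x = 0 := intervalIntegral.integral_same
  have hq : 0 < √(1 + b) := by positivity
  have hm : Monotone fun y => τ y - y / √(1 + b) :=
    monotone_of_hasDerivAt_nonneg
      (fun y => (hτ y).hasDerivAt.sub ((hasDerivAt_id y).div_const _)) fun y => by
        simpa using inv_anti₀ (hp y) (PP_le b y)
  have hs : StrictMono τ := strictMono_of_hasDerivAt_pos (fun y => (hτ y).hasDerivAt)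
    fun y => inv_pos.2 (hp y)
  have hsu : Function.Surjective τ := by
    refine Continuous.surjective
      (continuous_iff_continuousAt.2 fun y => (hτ y).hasDerivAt.continuousAt) ?_ ?_
    · refine tendsto_atTop_mono' _ ((eventually_ge_atTop x).mono fun y hy => ?_)
        (tendsto_atTop_add_const_right _ (-(x / √(1 + b))) (tendsto_id.atTop_div_const hq))
      have := hm hy
      simp only [id] at this ⊢
      linarith
    · refine tendsto_atBot_mono' _ ((eventually_le_atBot x).mono fun y hy => ?_)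
        (tendsto_atBot_add_const_right _ (-(x / √(1 + b))) (tendsto_id.atBot_div_const hq))
      have := hm hy
      simp only [id] at this ⊢
      linarith
  let e := hs.orderIsoOfSurjective τ hsu
  refine ⟨e.symm, τ, fun s => ?_, e.symm_apply_eq.2 h0.symm, e.symm_apply_apply, fun y hy => ?_⟩
  · simpa using HasDerivAt.of_local_left_inverse e.symm.continuous.continuousAt
      (hτ (e.symm s)).hasDerivAt (inv_pos.2 (hp _)).ne' (Eventually.of_forall e.apply_symm_apply)
  · have := hm hy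
    simp only at this
    rw [sub_div]
    linarith

lemma act_le {a b : ℝ} (ha : 0 ≤ a) (hab : a < b) (x : ℝ) (n : ℕ) : ∃ t, n / √(1 + b) ≤ t ∧
    minAct (Ham (mm a)) (a / 2) x x t ≤ ((√(b - a) * n : ℝ) : EReal) := by
  obtain ⟨γ, τ, h1, h2, h3, h4⟩ := exists_orbit (ha.trans_lt hab) x
  have h5 : n / √(1 + b) ≤ τ (x + n) := by simpa using h4 (x + n) (by simp)
  have h6 : 0 ≤ τ (x + n) := le_trans (by positivity) h5
  have hc : Continuous γ := continuous_iff_continuousAt.2 fun s => (h1 s).continuousAt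
  have hd : deriv γ = fun s => PP b (γ s) := funext fun s => (h1 s).deriv
  have ha' := (PP_cont a).comp hc
  have hb' := (PP_cont b).comp hc
  have hγ : ContDiff ℝ 1 γ :=
    contDiff_one_iff_deriv.2 ⟨fun s => (h1 s).differentiableAt, hd ▸ hb'⟩
  have hi : Continuous fun s => Lag (Ham (mm a)) (γ s) (deriv γ s) + a / 2 := by
    simp only [Lag_eq' ha, hd]
    exact ((ha'.sub continuous_const).mul hb').add (((hb'.sub ha').pow 2).div_const _)
  refine ⟨_, h5, ?_⟩
  refine iInf_le_of_le γ (iInf_le_of_le hγ.contDiffOn.absolutelyContinuousOnInterval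
    (iInf_le_of_le h2 (iInf_le_of_le ⟨n, by simp [h3]⟩
      (iInf_le_of_le (hi.intervalIntegrable _ _) (EReal.coe_le_coe_iff.2 ?_)))))
  have h7 := intervalIntegral.integral_eq_sub_of_hasDerivAt (a := 0) (b := τ (x + n))
    (fun s _ => ((vv_deriv a (γ s)).comp s (h1 s)).add ((h1 s).const_mul √(b - a)))
    ((((ha'.sub continuous_const).mul hb').add (continuous_const.mul hb')).intervalIntegrable _ _)
  have h8 := (vv_per a).nat_mul n x
  simp only [Pi.add_apply, Function.comp, h2, h3, mul_one] at h7 h8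
  refine le_trans (intervalIntegral.integral_mono_on h6 (hi.intervalIntegrable _ _)
    ((((ha'.sub continuous_const).mul hb').add (continuous_const.mul hb')).intervalIntegrable _ _)
    fun s _ => ?_) (le_of_eq (h7.trans (by rw [h8]; ring)))
  rw [Lag_eq' ha, hd]
  have := PP_sub ha hab.le (γ s)
  have := PP_mono hab.le (γ s)
  have := PP_nonneg a (γ s)
  have := sqrt_nonneg (b - a)
  show (PP a (γ s) - mm a) * PP b (γ s) + (PP b (γ s) - PP a (γ s)) ^ 2 / 2 ≤
    (PP a (γ s) - mm a) * PP b (γ s) + √(b - a) * PP b (γ s)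
  have h9 : (PP b (γ s) - PP a (γ s)) * (PP b (γ s) - PP a (γ s)) ≤ √(b - a) * PP b (γ s) :=
    mul_le_mul (by linarith) (by linarith) (by linarith) (by linarith)
  nlinarith [sq_nonneg (PP b (γ s) - PP a (γ s))]

lemma aubry {a : ℝ} (ha : 0 ≤ a) : Aubry (Ham (mm a)) (a / 2) = univ := by
  refine eq_univ_of_forall fun x => le_antisymm ?_
    (le_liminf_of_le (h := (eventually_ge_atTop 0).mono fun t ht => act_nonneg ha x ht))
  refine EReal.le_of_forall_lt_iff_le.1 fun ε hε => liminf_le_of_frequently_le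
    (frequently_atTop.2 fun T => ?_)
  have hε : 0 < ε := by exact_mod_cast hε
  obtain ⟨n, hn⟩ := exists_nat_ge (T * √(1 + (a + 1)))
  obtain ⟨δ, h1, h2, h3⟩ : ∃ δ : ℝ, 0 < δ ∧ δ ≤ 1 ∧ δ * n ≤ ε :=
    ⟨min 1 (ε / (n + 1)), by positivity, min_le_left _ _, by
      have h := min_le_right 1 (ε / (n + 1))
      rw [le_div_iff₀ (by positivity)] at h
      have : 0 < min 1 (ε / (n + 1)) := by positivity
      linarith⟩
  obtain ⟨t, h4, h5⟩ := act_le ha (b := a + δ ^ 2) (by linarith [sq_pos_of_pos h1]) x n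
  refine ⟨t, le_trans ?_ h4, h5.trans (EReal.coe_le_coe_iff.2 ?_)⟩
  · rw [← le_div_iff₀ (by positivity)] at hn
    exact hn.trans (div_le_div_of_nonneg_left (by positivity) (by positivity)
      (sqrt_le_sqrt (by nlinarith)))
  · rwa [add_sub_cancel_left, sqrt_sq h1.le]

lemma mm_close {r : ℝ} (hr : 0 ≤ r) : |mm 0 - mm (r ^ 2)| ≤ r := by
  rw [mm, mm, ← intervalIntegral.integral_sub ((PP_cont _).intervalIntegrable _ _)
    ((PP_cont _).intervalIntegrable _ _)]
  simpa using intervalIntegral.norm_integral_le_of_norm_le_const (a := 0) (b := 1) (C := r)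
    (f := fun x => PP 0 x - PP (r ^ 2) x) fun x _ => by
      have h1 := PP_sub le_rfl (sq_nonneg r) x
      rw [sub_zero, sqrt_sq hr] at h1
      rw [Real.norm_eq_abs, abs_le]
      constructor <;> linarith [PP_mono (sq_nonneg r) x]

lemma gap {r : ℝ} (h0 : 0 < r) (h1 : r ≤ 1) :
    r / 4 ≤ (PP (r ^ 2) 0 - PP 0 0) - (PP (r ^ 2) (r / 4) - PP 0 (r / 4)) := by
  have h2 := mul_le_sin (x := π * (r / 4)) (by positivity) (by nlinarith [pi_pos])
  have h3 := sin_le (x := π * (r / 4)) (by positivity)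
  have h4 : 2 / π * (π * (r / 4)) = r / 2 := by field_simp; norm_num
  have h5 : π * (r / 4) ≤ r := by nlinarith [pi_le_four]
  have h6 : PP (r ^ 2) (r / 4) ≤ r + sin (π * (r / 4)) / 2 :=
    sqrt_le_iff.2 ⟨by linarith, by nlinarith⟩
  have h7 : PP 0 (r / 4) = sin (π * (r / 4)) := by rw [PP, add_zero, sqrt_sq (by linarith)]
  have h8 : PP (r ^ 2) 0 = r := by simp [PP, sqrt_sq h0.le]
  have h9 : PP 0 0 = 0 := by simp [PP]
  linarith

end Pool.Agent.H.MP_e5a79a_an
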