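import Mathlib

open Set Filter Topology MeasureTheory

namespace Pool.Agent.H.MP_e5a79a_an

/-- `v` is a viscosity solution of `H(x, v') = k` on the circle. -/
def IsVisc (H : ℝ → ℝ → ℝ) (k : ℝ) (v : ℝ → ℝ) : Prop :=
  Continuous v ∧ Function.Periodic v 1 ∧ ∀ φ : ℝ → ℝ, ContDiff ℝ 1 φ → ∀ y,
    (IsLocalMax (v - φ) y → H y (deriv φ y) ≤ k) ∧ (IsLocalMin (v - φ) y → k ≤ H y (deriv φ y))

/-- The Legendre transform of `H`. -/
noncomputable def Lag (H : ℝ → ℝ → ℝ) (x w : ℝ) : ℝ := ⨆ p : ℝ, (p * w - H x p)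

/-- Minimal action of absolutely continuous curves joining the classes of `x`, `y` in time `t`. -/
noncomputable def minAct (H : ℝ → ℝ → ℝ) (k x y t : ℝ) : EReal :=
  ⨅ (γ : ℝ → ℝ) (_ : AbsolutelyContinuousOnInterval γ 0 t) (_ : γ 0 = x)
    (_ : ∃ n : ℤ, γ t = y + n)
    (_ : IntervalIntegrable (fun s => Lag H (γ s) (deriv γ s) + k) volume 0 t),
    ((∫ s in (0 : ℝ)..t, (Lag H (γ s) (deriv γ s) + k) : ℝ) : EReal)

/-- The projected Aubry set: zero set of the Peierls barrier on the diagonal. -/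
def Aubry (H : ℝ → ℝ → ℝ) (k : ℝ) : Set ℝ := {x | liminf (minAct H k x x) atTop = 0}

end Pool.Agent.H.MP_e5a79a_an
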